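import Pool.Agent.Q298.MB.Stm

/-!
# Project MB, job SUM: adding blocks
-/

set_option autoImplicit false
set_option linter.all false

namespace Pool.Agent.Q149.MB.SUM

open Pool.Agent.Q206.PY Pool.Agent.Q298.MB

theorem P_pow_mul {M : Type} [Monoid M] {b : ℕ} (hb : 2 ≤ b) (g : ℕ → M) (T : ℕ) {m : ℕ}
    (hm : 0 < m) : P b g (b ^ T * m) = g 0 ^ T * P b g m := by
  unfold P
  rw [Nat.digits_base_pow_mul (by omega) hm, List.map_append, List.prod_append,
    List.map_replicate, List.prod_replicate]

theorem len_pow_mul {b : ℕ} (hb : 2 ≤ b) (T : ℕ) {m : ℕ} (hm : 0 < m) :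
    (Nat.digits b (b ^ T * m)).length = T + (Nat.digits b m).length := by
  rw [Nat.digits_base_pow_mul (by omega) hm, List.length_append, List.length_replicate]

theorem P_add {M : Type} [Monoid M] {b : ℕ} (hb : 2 ≤ b) (g : ℕ → M) (x l : ℕ) {m : ℕ}
    (hm : 0 < m) : P b g (x + b ^ ((Nat.digits b x).length + l) * m) =
      P b g x * g 0 ^ l * P b g m := by
  unfold P
  rw [← Nat.digits_append_zeroes_append_digits (by omega) hm]
  simp only [List.map_append, List.prod_append, List.map_replicate, List.prod_replicate]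

theorem len_add {b : ℕ} (hb : 2 ≤ b) (x l : ℕ) {m : ℕ} (hm : 0 < m) :
    (Nat.digits b (x + b ^ ((Nat.digits b x).length + l) * m)).length =
      (Nat.digits b x).length + l + (Nat.digits b m).length := by
  rw [← Nat.digits_append_zeroes_append_digits (by omega) hm]
  simp only [List.length_append, List.length_replicate]

theorem t_SUM : J_SUM := by
  classical
  intro hALG k b hb M _ _ g N hN hid w u hw hu ρ c hc hH
  -- one matrix for all thresholds
  have h0 : ∃ A : ∀ j, Fin 3 → M j, ∀ H : ℕ, ∃ n : ℕ, 0 < n ∧ ∀ j i, ∃ T N' : ℕ, N ∣ T ∧ H ≤ T ∧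
      c i * n = b j ^ T * N' ∧ (Nat.digits (b j) N').length ≡ ρ j [MOD N] ∧
      P (b j) (g j) N' = w j * A j i * u j := by
    by_contra hcon
    push Not at hcon
    choose Hf hHf using hcon
    have : ∀ j, Fintype (M j) := fun j => Fintype.ofFinite (M j)
    let H : ℕ := ∑ A : ∀ j, Fin 3 → M j, Hf A
    obtain ⟨n, hn, hn2⟩ := hH H
    choose T N' A h1 h2 h3 h4 h5 using hn2
    obtain ⟨j, i, h6⟩ := hHf (fun j i => A j i) n hn
    have h7 : Hf (fun j i => A j i) ≤ H :=
      Finset.single_le_sum (f := Hf) (fun _ _ => Nat.zero_le _) (Finset.mem_univ _)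
    exact h6 (T j i) (N' j i) (h1 j i) (h7.trans (h2 j i)) (h3 j i) (h4 j i) (h5 j i)
  obtain ⟨A, hA⟩ := h0
  let τ : ∀ j, Fin 3 → M j := fun j i => w j * A j i * u j
  let E : Fin k → ℕ := fun j => N * (ρ j + 1) - ρ j
  have hE1 : ∀ j, N * (ρ j + 1) = E j + ρ j := fun j => by
    have h1 : ρ j ≤ N * (ρ j + 1) := by nlinarith
    exact (Nat.sub_add_cancel h1).symm
  have hE2 : ∀ j, N ≤ E j := fun j => by
    have h1 := hE1 j
    nlinarith
  let z : ∀ j, M j := fun j => g j 0 ^ E j
  have key : ∀ r : ℕ, ∃ S : ℕ, 0 < S ∧ ∀ j i,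
      P (b j) (g j) (c i * S) = g j 0 ^ N * (τ j i * (z j * τ j i) ^ r) ∧
      (Nat.digits (b j) (c i * S)).length ≡ ρ j [MOD N] := by
    intro r
    induction r with
    | zero =>
      obtain ⟨n, hn, hn2⟩ := hA N
      refine ⟨n, hn, fun j i => ?_⟩
      obtain ⟨T, N', hT, hNT, h3, h4, h5⟩ := hn2 j i
      have hN' : 0 < N' := by
        rcases Nat.eq_zero_or_pos N' with h | h
        · exfalso
          rw [h, mul_zero] at h3
          exact absurd h3 (Nat.mul_pos (hc i) hn).ne'
        · exact h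
      rw [h3, P_pow_mul (hb j) _ _ hN', len_pow_mul (hb j) _ hN', h5, pow_zero, mul_one]
      constructor
      · rw [pow_eq_of_modEq hN (hid j) (g j 0) hNT le_rfl (by
          rw [Nat.mod_self, Nat.mod_eq_zero_of_dvd hT])]
      · have h6 : T ≡ 0 [MOD N] := (Nat.modEq_zero_iff_dvd).2 hT
        have h7 := h6.add h4
        rwa [zero_add] at h7
    | succ r ih =>
      obtain ⟨S, hS, hS2⟩ := ih
      let Lm : ℕ := ∑ j, ∑ i, (Nat.digits (b j) (c i * S)).length
      have hLm : ∀ j i, (Nat.digits (b j) (c i * S)).length ≤ Lm := fun j i =>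
        (Finset.single_le_sum (f := fun i => (Nat.digits (b j) (c i * S)).length)
          (fun _ _ => Nat.zero_le _) (Finset.mem_univ i)).trans
        (Finset.single_le_sum (f := fun j => ∑ i, (Nat.digits (b j) (c i * S)).length)
          (fun _ _ => Nat.zero_le _) (Finset.mem_univ j))
      obtain ⟨n, hn, hn2⟩ := hA (N + Lm)
      refine ⟨S + n, by omega, fun j i => ?_⟩
      obtain ⟨T, N', hT, hNT, h3, h4, h5⟩ := hn2 j i
      obtain ⟨h8, h9⟩ := hS2 j i
      have hN' : 0 < N' := by
        rcases Nat.eq_zero_or_pos N' with h | h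
        · exfalso
          rw [h, mul_zero] at h3
          exact absurd h3 (Nat.mul_pos (hc i) hn).ne'
        · exact h
      have h10 := hLm j i
      obtain ⟨l, hl⟩ : ∃ l, T = (Nat.digits (b j) (c i * S)).length + l :=
        Nat.exists_eq_add_of_le (by omega)
      have hlN : N ≤ l := by omega
      have h11 : c i * (S + n) = c i * S + b j ^ ((Nat.digits (b j) (c i * S)).length + l) * N' := by
        rw [mul_add, h3, ← hl]
      rw [h11, P_add (hb j) _ _ _ hN', len_add (hb j) _ _ hN', h8, h5]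
      have h12 : l ≡ E j [MOD N] := by
        have h13 : l + ρ j ≡ E j + ρ j [MOD N] := by
          have h14 : l + (Nat.digits (b j) (c i * S)).length ≡ l + ρ j [MOD N] :=
            Nat.ModEq.add_left l h9
          have h15 : l + (Nat.digits (b j) (c i * S)).length = T := by omega
          rw [h15] at h14
          have h16 : T ≡ 0 [MOD N] := (Nat.modEq_zero_iff_dvd).2 hT
          have h17 : E j + ρ j ≡ 0 [MOD N] := by
            rw [← hE1 j]
            exact (Nat.modEq_zero_iff_dvd).2 (Dvd.intro _ rfl)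
          exact h14.symm.trans (h16.trans h17.symm)
        exact Nat.ModEq.add_right_cancel' (ρ j) h13
      constructor
      · have h18 : g j 0 ^ l = z j := pow_eq_of_modEq hN (hid j) (g j 0) hlN (hE2 j) h12
        rw [h18, pow_succ]
        change g j 0 ^ N * (τ j i * (z j * τ j i) ^ r) * z j * τ j i = _
        simp only [mul_assoc]
      · have h16 : T ≡ 0 [MOD N] := (Nat.modEq_zero_iff_dvd).2 hT
        rw [← hl]
        have h7 := h16.add h4
        rwa [zero_add] at h7
  obtain ⟨S, hS, hS2⟩ := key (N - 1)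
  refine ⟨S, hS, fun j i i' => ?_⟩
  rw [(hS2 j i).1, (hS2 j i').1]
  congr 1
  exact hALG (M j) N hN (hid j) (w j) (u j) (z j) (A j i) (A j i') (hw j) (hu j)

end Pool.Agent.Q149.MB.SUM
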