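import Pool.Agent.Q298.MB.Stm

/-!
# Project MB, job TRI: the triple
-/

set_option autoImplicit false
set_option linter.all false

namespace Pool.Agent.Q149.MB.TRI

open Pool.Agent.Q298.MB

theorem cont4 (η : ℝ) (hη : 0 < η) : ∃ ε : ℝ, 0 < ε ∧ ε < 1 / 2 ∧ ∀ r1 r2 r3 r4 : ℝ,
    |r1 - 1| ≤ ε → |r2 - 1| ≤ ε → |r3 - 1| ≤ ε → |r4 - 1| ≤ ε →
    |r1 * r2 * r3 / r4 - 1| < η := by
  have hc : ContinuousAt (fun r : ℝ × ℝ × ℝ × ℝ => r.1 * r.2.1 * r.2.2.1 / r.2.2.2)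
      (1, 1, 1, 1) := by
    refine ContinuousAt.div (by fun_prop) (by fun_prop) ?_
    norm_num
  obtain ⟨δ', hδ', h⟩ := Metric.continuousAt_iff.1 hc η hη
  refine ⟨min (δ' / 2) (1 / 4), lt_min (by linarith) (by norm_num), ?_, ?_⟩
  · exact lt_of_le_of_lt (min_le_right _ _) (by norm_num)
  · intro r1 r2 r3 r4 h1 h2 h3 h4
    have hm : min (δ' / 2) (1 / 4) < δ' := lt_of_le_of_lt (min_le_left _ _) (by linarith)
    have h5 := @h (r1, r2, r3, r4) (by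
      simp only [Prod.dist_eq, Real.dist_eq, max_lt_iff]
      exact ⟨h1.trans_lt hm, h2.trans_lt hm, h3.trans_lt hm, h4.trans_lt hm⟩)
    rw [Real.dist_eq] at h5
    simpa using h5

theorem cont2 (ε : ℝ) (hε : 0 < ε) : ∃ ε2 : ℝ, 0 < ε2 ∧ ∀ ρ σ : ℝ,
    |ρ - 1| ≤ ε2 → |σ| ≤ ε2 → |4 * ρ / (4 * ρ ^ 2 + σ) - 1| ≤ ε ∧
      |(4 * ρ ^ 2 - σ) / (4 * ρ ^ 2 + σ) - 1| ≤ ε := by
  have hc1 : ContinuousAt (fun r : ℝ × ℝ => 4 * r.1 / (4 * r.1 ^ 2 + r.2)) (1, 0) := by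
    refine ContinuousAt.div (by fun_prop) (by fun_prop) ?_
    norm_num
  have hc2 : ContinuousAt (fun r : ℝ × ℝ => (4 * r.1 ^ 2 - r.2) / (4 * r.1 ^ 2 + r.2)) (1, 0) := by
    refine ContinuousAt.div (by fun_prop) (by fun_prop) ?_
    norm_num
  obtain ⟨d1, hd1, h1⟩ := Metric.continuousAt_iff.1 hc1 ε hε
  obtain ⟨d2, hd2, h2⟩ := Metric.continuousAt_iff.1 hc2 ε hε
  refine ⟨min (d1 / 2) (d2 / 2), lt_min (by linarith) (by linarith), ?_⟩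
  intro ρ σ hρ hσ
  have hm1 : min (d1 / 2) (d2 / 2) < d1 := lt_of_le_of_lt (min_le_left _ _) (by linarith)
  have hm2 : min (d1 / 2) (d2 / 2) < d2 := lt_of_le_of_lt (min_le_right _ _) (by linarith)
  have h3 := @h1 (ρ, σ) (by
    simp only [Prod.dist_eq, Real.dist_eq, max_lt_iff, sub_zero]
    exact ⟨hρ.trans_lt hm1, hσ.trans_lt hm1⟩)
  have h4 := @h2 (ρ, σ) (by
    simp only [Prod.dist_eq, Real.dist_eq, max_lt_iff, sub_zero]
    exact ⟨hρ.trans_lt hm2, hσ.trans_lt hm2⟩)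
  rw [Real.dist_eq] at h3 h4
  have e1 : (4 * (1 : ℝ) / (4 * 1 ^ 2 + 0)) = 1 := by norm_num
  have e2 : ((4 * (1 : ℝ) ^ 2 - 0) / (4 * 1 ^ 2 + 0)) = 1 := by norm_num
  change |4 * ρ / (4 * ρ ^ 2 + σ) - 4 * (1 : ℝ) / (4 * 1 ^ 2 + 0)| < ε at h3
  change |(4 * ρ ^ 2 - σ) / (4 * ρ ^ 2 + σ) - (4 * (1 : ℝ) ^ 2 - 0) / (4 * 1 ^ 2 + 0)| < ε at h4
  rw [e1] at h3
  rw [e2] at h4
  exact ⟨h3.le, h4.le⟩

theorem pow' (hPOW : J_POW) {k : ℕ} {b : Fin k → ℕ} (hk : 0 < k) (hb : ∀ j, 2 ≤ b j) {m : ℕ}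
    (hm : 0 < m) (H : ℕ) (V₀ : ℝ) {ε : ℝ} (hε : 0 < ε) (hε1 : ε < 1 / 2) :
    ∃ (e : Fin k → ℕ) (Y : ℝ), V₀ ≤ Y ∧ 0 < Y ∧
      ∀ j, m ∣ e j ∧ H ≤ e j ∧ |(b j : ℝ) ^ e j / Y - 1| ≤ ε := by
  obtain ⟨H3, hH3⟩ := pow_unbounded_of_one_lt (2 * V₀) (one_lt_two (α := ℝ))
  obtain ⟨e, Y, hY, h⟩ := hPOW k b hb m (H + H3) ε hm hε
  refine ⟨e, Y, ?_, hY, fun j => ?_⟩
  · obtain ⟨h1, h2, h3, h4⟩ := h ⟨0, hk⟩
    have h5 : (2 : ℝ) ^ H3 ≤ (b ⟨0, hk⟩ : ℝ) ^ e ⟨0, hk⟩ := by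
      have h6 : (2 : ℝ) ≤ b ⟨0, hk⟩ := by exact_mod_cast hb ⟨0, hk⟩
      calc (2 : ℝ) ^ H3 ≤ 2 ^ e ⟨0, hk⟩ := pow_le_pow_right₀ (by norm_num) (by omega)
        _ ≤ (b ⟨0, hk⟩ : ℝ) ^ e ⟨0, hk⟩ := pow_le_pow_left₀ (by norm_num) h6 _
    nlinarith
  · obtain ⟨h1, h2, h3, h4⟩ := h j
    refine ⟨h1, by omega, ?_⟩
    rw [abs_le]
    constructor
    · have : 1 - ε ≤ (b j : ℝ) ^ e j / Y := by rw [le_div_iff₀ hY]; exact h3
      linarith
    · have : (b j : ℝ) ^ e j / Y ≤ 1 + ε := by rw [div_le_iff₀ hY]; exact h4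
      linarith

/-- a number in a residue class near to a given real number -/
theorem near (D : ℕ) (hD : 0 < D) (c : ℕ) (hc : c < D) (X : ℝ) (hX : 0 ≤ X) :
    |((D * ⌊X / D⌋₊ + c : ℕ) : ℝ) - X| ≤ D := by
  have hD' : (0 : ℝ) < D := by exact_mod_cast hD
  have h1 : (⌊X / D⌋₊ : ℝ) ≤ X / D := Nat.floor_le (div_nonneg hX hD'.le)
  have h2 : X / D < ⌊X / D⌋₊ + 1 := Nat.lt_floor_add_one _
  rw [le_div_iff₀ hD'] at h1
  rw [div_lt_iff₀ hD'] at h2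
  have h3 : (c : ℝ) < D := by exact_mod_cast hc
  have h4 : (0 : ℝ) ≤ c := Nat.cast_nonneg c
  push_cast
  rw [abs_le]
  constructor <;> nlinarith

theorem good_of {b m L H W : ℕ} {ξ δ : ℝ} (hb : 2 ≤ b) (hξ : 0 < ξ) {c α s c' : ℕ} (h1 : m ∣ α)
    (h2 : m ∣ s) (h3 : H ≤ s) (h4 : c = b ^ α * c') (h5 : c' ≡ W [MOD b ^ L])
    (h6 : |(c' : ℝ) / (ξ * (b : ℝ) ^ s) - 1| < δ / ξ) : Good b m L H W ξ δ c := by
  refine ⟨α, s, c', h1, h2, h3, h4, h5, ?_⟩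
  have hb' : (0 : ℝ) < (b : ℝ) ^ s := pow_pos (by exact_mod_cast (by omega : 0 < b)) _
  have h7 : (c' : ℝ) - ξ * (b : ℝ) ^ s =
      ((c' : ℝ) / (ξ * (b : ℝ) ^ s) - 1) * (ξ * (b : ℝ) ^ s) := by
    field_simp
  rw [h7, abs_mul, abs_of_pos (mul_pos hξ hb')]
  calc |(c' : ℝ) / (ξ * (b : ℝ) ^ s) - 1| * (ξ * (b : ℝ) ^ s)
      < δ / ξ * (ξ * (b : ℝ) ^ s) := mul_lt_mul_of_pos_right h6 (mul_pos hξ hb')
    _ = δ * (b : ℝ) ^ s := by field_simp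

theorem t_TRI : J_TRI := by
  classical
  intro hPOW k b hk hb hcop m L H K W ξ δ hm hW hξ hδ
  obtain ⟨ε, hε, hε1, h4⟩ := cont4 (δ / ξ) (div_pos hδ hξ)
  obtain ⟨ε2, hε2, h2⟩ := cont2 ε hε
  have hbp : ∀ j, 0 < b j := fun j => by have := hb j; omega
  -- the exponents
  set Φ : ℕ := ∏ j, Nat.totient (b j ^ L) with hΦ
  have hΦ0 : 0 < Φ := Finset.prod_pos fun j _ => Nat.totient_pos.2 (pow_pos (hbp j) L)
  set a : ℕ := m * Φ * (L + 1) with ha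
  have haL : L ≤ a := by
    have h1 : 1 ≤ m * Φ := Nat.mul_pos hm hΦ0
    nlinarith
  have hma : m ∣ a := ⟨Φ * (L + 1), by rw [ha, mul_assoc]⟩
  have hφa : ∀ j, Nat.totient (b j ^ L) ∣ a := fun j => by
    have h1 : Nat.totient (b j ^ L) ∣ Φ :=
      Finset.dvd_prod_of_mem (fun j => Nat.totient (b j ^ L)) (Finset.mem_univ j)
    exact (h1.trans (Dvd.intro_left m rfl)).trans (Dvd.intro (L + 1) rfl)
  set B : ℕ := ∏ j, b j ^ a with hBdef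
  set D : ℕ := ∏ j, b j ^ L with hDdef
  have hB : 0 < B := Finset.prod_pos fun j _ => pow_pos (hbp j) a
  have hD : 0 < D := Finset.prod_pos fun j _ => pow_pos (hbp j) L
  have hDj : ∀ j, b j ^ L ∣ D := fun j =>
    Finset.dvd_prod_of_mem (fun j => b j ^ L) (Finset.mem_univ j)
  have hBj : ∀ j, b j ^ L ∣ B := fun j =>
    (pow_dvd_pow (b j) haL).trans (Finset.dvd_prod_of_mem (fun j => b j ^ a) (Finset.mem_univ j))
  have hBr : (1 : ℝ) ≤ B := by exact_mod_cast hB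
  have hDr : (1 : ℝ) ≤ D := by exact_mod_cast hD
  -- the first approximation
  obtain ⟨i, V, hV0, hV, hi⟩ := pow' hPOW hk hb hm 0 (((D : ℝ) + 1) / ε2 + 1) hε hε1
  have hV1 : 1 ≤ V := by
    have : 0 ≤ ((D : ℝ) + 1) / ε2 := by positivity
    linarith
  have hVε : (D : ℝ) + 1 ≤ V * ε2 := by
    have h1 : ((D : ℝ) + 1) / ε2 ≤ V := by linarith
    rwa [div_le_iff₀ hε2] at h1
  have hBV : 0 < (B : ℝ) * V := by positivity
  set n : ℕ := D * ⌊((B : ℝ) * V) / D⌋₊ + 1 % D with hn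
  have hnear : |(n : ℝ) - B * V| ≤ D := near D hD (1 % D) (Nat.mod_lt _ hD) _ hBV.le
  have hn1 : n ≡ 1 [MOD D] := by
    have h1 : n ≡ 0 + 1 [MOD D] :=
      Nat.ModEq.add ((Nat.modEq_zero_iff_dvd).2 (Dvd.intro _ rfl)) (Nat.mod_modEq 1 D)
    simpa using h1
  have hρ : |(n : ℝ) / (B * V) - 1| ≤ ε2 := by
    have h1 : (n : ℝ) / (B * V) - 1 = ((n : ℝ) - B * V) / (B * V) := by field_simp
    rw [h1, abs_div, abs_of_pos hBV, div_le_iff₀ hBV]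
    refine hnear.trans ?_
    have h5 : V * ε2 ≤ B * (V * ε2) := le_mul_of_one_le_left (by positivity) hBr
    nlinarith
  have hσ : |1 / V ^ 2| ≤ ε2 := by
    rw [abs_of_pos (by positivity), div_le_iff₀ (by positivity)]
    have h5 : V * ε2 ≤ V * (V * ε2) := le_mul_of_one_le_left (by positivity) hV1
    nlinarith
  obtain ⟨hw, hs⟩ := h2 _ _ hρ hσ
  have hnp : (0 : ℝ) ≤ n := Nat.cast_nonneg n
  set N₀ : ℝ := 4 * (n : ℝ) ^ 2 + (B : ℝ) ^ 2 with hN₀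
  have hN₀p : 0 < N₀ := by positivity
  have hden : 4 * ((n : ℝ) / (B * V)) ^ 2 + 1 / V ^ 2 = N₀ / (B * V) ^ 2 := by
    rw [hN₀]
    field_simp
  have hw' : |4 * n * B * V / N₀ - 1| ≤ ε := by
    have h1 : 4 * ((n : ℝ) / (B * V)) / (4 * ((n : ℝ) / (B * V)) ^ 2 + 1 / V ^ 2) =
        4 * n * B * V / N₀ := by
      rw [hden]
      field_simp
    rwa [h1] at hw
  have hs' : |(4 * (n : ℝ) ^ 2 - (B : ℝ) ^ 2) / N₀ - 1| ≤ ε := by
    have h1 : (4 * ((n : ℝ) / (B * V)) ^ 2 - 1 / V ^ 2) /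
        (4 * ((n : ℝ) / (B * V)) ^ 2 + 1 / V ^ 2) = (4 * (n : ℝ) ^ 2 - (B : ℝ) ^ 2) / N₀ := by
      rw [hden]
      field_simp
    rwa [h1] at hs
  have hlt : B ^ 2 < 4 * n ^ 2 := by
    have h1 : 0 < (4 * (n : ℝ) ^ 2 - (B : ℝ) ^ 2) / N₀ := by
      have := (abs_le.1 hs').1
      linarith
    have h3 : 0 < 4 * (n : ℝ) ^ 2 - (B : ℝ) ^ 2 := by
      by_contra hcon
      push Not at hcon
      exact absurd h1 (not_lt.2 (div_nonpos_of_nonpos_of_nonneg hcon hN₀p.le))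
    have h5 : (B : ℝ) ^ 2 < 4 * (n : ℝ) ^ 2 := by linarith
    exact_mod_cast h5
  have hnpos : 0 < n := by
    rcases Nat.eq_zero_or_pos n with h | h
    · rw [h] at hlt
      simp at hlt
    · exact h
  -- the second approximation
  set Y₀ : ℝ := D * N₀ / (ξ * ε) + (K + D + 1) * N₀ / ξ with hY₀
  obtain ⟨e, Y, hY0, hY, he⟩ := pow' hPOW hk hb hm (H + ∑ j, i j + a) Y₀ hε hε1
  have hY1 : D * N₀ ≤ ξ * Y * ε := by
    have h1 : 0 ≤ (K + D + 1) * N₀ / ξ := by positivity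
    have h3 : D * N₀ / (ξ * ε) ≤ Y := by linarith
    rw [div_le_iff₀ (by positivity)] at h3
    linarith
  have hY2 : (K + D + 1) * N₀ ≤ ξ * Y := by
    have h1 : 0 ≤ D * N₀ / (ξ * ε) := by positivity
    have h3 : (K + D + 1) * N₀ / ξ ≤ Y := by linarith
    rw [div_le_iff₀ hξ] at h3
    linarith
  -- the residue class of κ
  obtain ⟨κ₀, hκ₀⟩ := Nat.chineseRemainderOfFinset (fun j => W j / 4) (fun j => b j ^ L)
    (Finset.univ : Finset (Fin k)) (fun j _ => (pow_pos (hbp j) L).ne')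
    (fun x _ y _ hxy => Nat.Coprime.pow L L (hcop x y hxy))
  set κ : ℕ := D * ⌊(ξ * Y / N₀) / D⌋₊ + κ₀ % D with hκ
  have hκnear : |(κ : ℝ) - ξ * Y / N₀| ≤ D :=
    near D hD (κ₀ % D) (Nat.mod_lt _ hD) _ (by positivity)
  have hκmod : ∀ j, κ ≡ W j / 4 [MOD b j ^ L] := by
    intro j
    have h1 : κ ≡ 0 + κ₀ [MOD D] :=
      Nat.ModEq.add ((Nat.modEq_zero_iff_dvd).2 (Dvd.intro _ rfl)) (Nat.mod_modEq κ₀ D)
    rw [zero_add] at h1
    exact (h1.of_dvd (hDj j)).trans (hκ₀ j (Finset.mem_univ j))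
  have hκK : K < κ := by
    have h1 : (K : ℝ) + D + 1 ≤ ξ * Y / N₀ := by
      rw [le_div_iff₀ hN₀p]
      exact hY2
    have h3 := (abs_le.1 hκnear).1
    have h5 : (K : ℝ) < κ := by linarith
    exact_mod_cast h5
  have ht : |(κ : ℝ) * N₀ / (ξ * Y) - 1| ≤ ε := by
    have hξY : 0 < ξ * Y := by positivity
    have h1 : (κ : ℝ) * N₀ / (ξ * Y) - 1 = ((κ : ℝ) - ξ * Y / N₀) * N₀ / (ξ * Y) := by
      field_simp
    rw [h1, abs_div, abs_mul, abs_of_pos hN₀p, abs_of_pos hξY, div_le_iff₀ hξY]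
    nlinarith [mul_le_mul_of_nonneg_right hκnear hN₀p.le]
  -- congruences
  have hnj : ∀ j, n ≡ 1 [MOD b j ^ L] := fun j => hn1.of_dvd (hDj j)
  have hB2 : ∀ j, B ^ 2 ≡ 0 [MOD b j ^ L] := fun j =>
    (Nat.modEq_zero_iff_dvd).2 ((hBj j).trans (Dvd.intro_left B (by ring)))
  have h4n : ∀ j, 4 * n ^ 2 ≡ 4 [MOD b j ^ L] := fun j => by
    have h1 := ((hnj j).pow 2).mul_left 4
    simpa using h1
  have hW4 : ∀ j, W j / 4 * 4 = W j := fun j => Nat.div_mul_cancel (hW j)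
  obtain ⟨y0, hy0⟩ : ∃ y0, y0 + B ^ 2 = 4 * n ^ 2 := ⟨4 * n ^ 2 - B ^ 2, by omega⟩
  have hy0pos : 0 < y0 := by omega
  have hy0r : (y0 : ℝ) = 4 * (n : ℝ) ^ 2 - (B : ℝ) ^ 2 := by
    have h1 : (y0 : ℝ) + (B : ℝ) ^ 2 = 4 * (n : ℝ) ^ 2 := by exact_mod_cast hy0
    linarith
  have hij : ∀ j, i j ≤ ∑ j, i j := fun j =>
    Finset.single_le_sum (f := i) (fun _ _ => Nat.zero_le _) (Finset.mem_univ j)
  refine ⟨κ * (4 * n * B), κ * y0, κ * (4 * n ^ 2 + B ^ 2), ?_, ?_, ?_, ?_, ?_⟩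
  · exact hκK.trans_le (Nat.le_mul_of_pos_right κ (by positivity))
  · exact hκK.trans_le (Nat.le_mul_of_pos_right κ hy0pos)
  · exact hκK.trans_le (Nat.le_mul_of_pos_right κ (by positivity))
  · rw [← hy0]
    have h1 : (4 * n * B) ^ 2 = 4 * (y0 + B ^ 2) * B ^ 2 := by rw [hy0]; ring
    calc (κ * (4 * n * B)) ^ 2 + (κ * y0) ^ 2 = κ ^ 2 * ((4 * n * B) ^ 2 + y0 ^ 2) := by ring
      _ = κ ^ 2 * (4 * (y0 + B ^ 2) * B ^ 2 + y0 ^ 2) := by rw [h1]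
      _ = _ := by ring
  · intro j
    obtain ⟨hme, hHe, hpe⟩ := he j
    obtain ⟨hmi, -, hvi⟩ := hi j
    have hbr : (0 : ℝ) < b j := by exact_mod_cast hbp j
    have hijj := hij j
    have hbe : (0 : ℝ) < (b j : ℝ) ^ e j := pow_pos hbr _
    have hbi : (0 : ℝ) < (b j : ℝ) ^ i j := pow_pos hbr _
    refine ⟨?_, ?_, ?_⟩
    · -- x
      set Bj : ℕ := ∏ l ∈ Finset.univ.erase j, b l ^ a with hBjdef
      have hBB : b j ^ a * Bj = B := Finset.mul_prod_erase Finset.univ (fun l => b l ^ a)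
        (Finset.mem_univ j)
      have hBj1 : Bj ≡ 1 [MOD b j ^ L] := by
        refine Finset.prod_induction (fun l => b l ^ a) (fun x => x ≡ 1 [MOD b j ^ L])
          (fun x y hx hy => by simpa using hx.mul hy) (Nat.ModEq.refl 1) ?_
        intro l hl
        obtain ⟨a', ha'⟩ := hφa j
        have hcl : Nat.Coprime (b l) (b j ^ L) :=
          Nat.Coprime.pow_right L (hcop l j (Finset.ne_of_mem_erase hl))
        have h1 := (Nat.ModEq.pow_totient hcl).pow a'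
        rw [one_pow, ← pow_mul, ← ha'] at h1
        exact h1
      refine good_of (hb j) hξ (α := a) (s := e j - i j - a) (c' := κ * (4 * n * Bj)) hma
        (Nat.dvd_sub (Nat.dvd_sub hme hmi) hma) (by omega) ?_ ?_ ?_
      · rw [← hBB]
        ring
      · have h1 : 4 * n * Bj ≡ 4 * 1 * 1 [MOD b j ^ L] := ((hnj j).mul_left 4).mul hBj1
        have h3 := (hκmod j).mul h1
        rw [mul_one, mul_one, hW4 j] at h3
        exact h3
      · have hba : (0 : ℝ) < (b j : ℝ) ^ a := pow_pos hbr _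
        have hse : (b j : ℝ) ^ (e j - i j - a) * ((b j : ℝ) ^ i j * (b j : ℝ) ^ a) =
            (b j : ℝ) ^ e j := by
          rw [← pow_add, ← pow_add]
          congr 1
          omega
        have hBBr : (b j : ℝ) ^ a * (Bj : ℝ) = B := by exact_mod_cast hBB
        have hbs : (0 : ℝ) < (b j : ℝ) ^ (e j - i j - a) := pow_pos hbr _
        have hval : ((κ * (4 * n * Bj) : ℕ) : ℝ) / (ξ * (b j : ℝ) ^ (e j - i j - a)) =
            ((κ : ℝ) * N₀ / (ξ * Y)) * (4 * n * B * V / N₀) * ((b j : ℝ) ^ i j / V) /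
              ((b j : ℝ) ^ e j / Y) := by
          rw [← hse, ← hBBr]
          push_cast
          field_simp
        rw [hval]
        exact h4 _ _ _ _ ht hw' hvi hpe
    · -- y
      refine good_of (hb j) hξ (α := 0) (s := e j) (c' := κ * y0) (dvd_zero m) hme (by omega)
        (by rw [pow_zero, one_mul]) ?_ ?_
      · have h1 : y0 ≡ 4 [MOD b j ^ L] := by
          have h3 : y0 + 0 ≡ y0 + B ^ 2 [MOD b j ^ L] := (hB2 j).symm.add_left y0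
          rw [add_zero, hy0] at h3
          exact h3.trans (h4n j)
        have h3 := (hκmod j).mul h1
        rw [hW4 j] at h3
        exact h3
      · have hval : ((κ * y0 : ℕ) : ℝ) / (ξ * (b j : ℝ) ^ e j) =
            ((κ : ℝ) * N₀ / (ξ * Y)) * ((4 * (n : ℝ) ^ 2 - (B : ℝ) ^ 2) / N₀) * 1 /
              ((b j : ℝ) ^ e j / Y) := by
          push_cast
          rw [hy0r]
          field_simp
        rw [hval]
        exact h4 _ _ _ _ ht hs' (by simpa using hε.le) hpe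
    · -- z
      refine good_of (hb j) hξ (α := 0) (s := e j) (c' := κ * (4 * n ^ 2 + B ^ 2)) (dvd_zero m)
        hme (by omega) (by rw [pow_zero, one_mul]) ?_ ?_
      · have h1 : 4 * n ^ 2 + B ^ 2 ≡ 4 + 0 [MOD b j ^ L] := (h4n j).add (hB2 j)
        have h3 := (hκmod j).mul h1
        rw [add_zero, hW4 j] at h3
        exact h3
      · have hval : ((κ * (4 * n ^ 2 + B ^ 2) : ℕ) : ℝ) / (ξ * (b j : ℝ) ^ e j) =
            ((κ : ℝ) * N₀ / (ξ * Y)) * 1 * 1 / ((b j : ℝ) ^ e j / Y) := by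
          push_cast
          rw [← hN₀]
          field_simp
        rw [hval]
        exact h4 _ _ _ _ ht (by simpa using hε.le) (by simpa using hε.le) hpe

end Pool.Agent.Q149.MB.TRI
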